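import Pool.Agent.RichW.Main

/-!
MP_086d3c_co: if two words `u, v` are factors of a rich word over a finite alphabet `α`, then they
are factors of a rich word `z` over `α` with `|z| + 1 ≤ n + R(n)`, where `n = max(|u|, |v|)` and
`R(n)` is the number of rich words of length `n` over `α`.
-/

namespace Pool.Agent.Helper67.Kept.ShortCommonWord

open Pool.Agent.RichW

theorem result {α : Type*} [Fintype α] (u v w : List α) (hw : Rich w) (hu : u <:+: w)
    (hv : v <:+: w) :
    ∃ z : List α, Rich z ∧ u <:+: z ∧ v <:+: z ∧ z.length + 1 ≤ max u.length v.length +
      {x : List α | x.length = max u.length v.length ∧ Rich x}.ncard :=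
  main u v w hw hu hv

end Pool.Agent.Helper67.Kept.ShortCommonWord
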